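import Pool.Agent.T2h48.DW.Fin
import Pool.Agent.N345.Sym.Basic

/-!
# Symmetric designs with an involution whose fixed structure is a symmetric design with the same `λ`
-/

set_option autoImplicit false

namespace Pool.Agent.T2h48.TD

open Finset Pool.Agent.T2h48.DW

/-- symmetric designs and bijections -/
theorem design_congr {P B P' B' : Type} {I : P → B → Prop} {I' : P' → B' → Prop} (e : P ≃ P')
    (f : B ≃ B') (hI : ∀ x b, I' (e x) (f b) ↔ I x b) {v k l : ℕ} (h : IsSymmetricDesign I v k l) :
    IsSymmetricDesign I' v k l := by
  refine ⟨?_, ?_, ?_, ?_⟩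
  · rw [← Nat.card_congr e, h.cardP]
  · rw [← Nat.card_congr f, h.cardB]
  · intro b'
    obtain ⟨b, rfl⟩ := f.surjective b'
    rw [← h.block b]
    exact Nat.card_congr (e.subtypeEquiv fun x => (hI x b).symm).symm
  · intro x' y' hxy
    obtain ⟨x, rfl⟩ := e.surjective x'
    obtain ⟨y, rfl⟩ := e.surjective y'
    rw [← h.pair x y (fun h => hxy (by rw [h]))]
    refine Nat.card_congr (f.subtypeEquiv fun b => ?_).symm
    rw [hI, hI]

/-- two distinct blocks have exactly `l` common points -/
theorem dual {P B : Type} [Finite P] [Finite B] {I : P → B → Prop} {v k l : ℕ}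
    (h : IsSymmetricDesign I v k l) (hv : 2 ≤ v) (hl : 1 ≤ l) {b c : B} (hbc : b ≠ c) :
    Nat.card {x : P // I x b ∧ I x c} = l := by
  classical
  let _ : Fintype P := Fintype.ofFinite P
  let _ : Fintype B := Fintype.ofFinite B
  have hcount := (h.count (by omega)).2
  have hv' : (1 : ℤ) ≤ v - 1 := by
    have : (2 : ℤ) ≤ v := by exact_mod_cast hv
    linarith
  have hl' : (1 : ℤ) ≤ l := by exact_mod_cast hl
  have hk2 : 2 ≤ k := by
    by_contra hk
    have : k = 0 ∨ k = 1 := by omega
    rcases this with rfl | rfl <;> norm_num at hcount <;> omega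
  have hkv : k ≤ v := by
    rw [← h.cardP, ← h.block b]
    exact Nat.card_le_card_of_injective (fun x : {x : P // I x b} => x.1) Subtype.val_injective
  rcases hkv.lt_or_eq with hlt | heq
  · -- the nontrivial case
    let e : P ≃ Fin v := (Finite.equivFinOfCardEq h.cardP)
    let f : B ≃ Fin v := (Finite.equivFinOfCardEq h.cardB)
    let Bl : Fin v → Finset (Fin v) := fun i => univ.filter fun x => I (e.symm x) (f.symm i)
    have hd : Pool.Agent.N345.Sym.Des v k l Bl := by
      refine ⟨hk2, hlt, ?_, ?_⟩
      · intro i
        rw [← h.block (f.symm i), Nat.card_eq_fintype_card, ← Fintype.card_subtype]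
        exact Fintype.card_congr (e.symm.subtypeEquiv fun x => Iff.rfl)
      · intro x y hxy
        rw [← h.pair (e.symm x) (e.symm y) (fun h => hxy (e.symm.injective h)),
          Nat.card_eq_fintype_card, ← Fintype.card_subtype]
        refine Fintype.card_congr (f.symm.subtypeEquiv fun i => ?_)
        simp only [Bl, mem_filter, mem_univ, true_and]
    have h1 := hd.inter hl (i := f b) (j := f c) (fun h => hbc (f.injective h))
    rw [← h1, Nat.card_eq_fintype_card]
    have h2 : Bl (f b) ∩ Bl (f c) = univ.filter fun x => I (e.symm x) b ∧ I (e.symm x) c := by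
      ext x
      simp only [Bl, mem_inter, mem_filter, mem_univ, true_and, Equiv.symm_apply_apply]
    rw [h2, ← Fintype.card_subtype]
    exact (Fintype.card_congr (e.symm.subtypeEquiv fun x => Iff.rfl)).symm
  · -- all points are on all blocks
    have hlv : l = v := by
      have h1 : (v : ℤ) * (v - 1) = l * (v - 1) := by rw [← hcount, heq]
      have h2 : (v : ℤ) = l := by
        have := mul_right_cancel₀ (by omega : ((v : ℤ) - 1) ≠ 0) h1
        exact this
      exact_mod_cast h2.symm
    have hall : ∀ c : B, ∀ x, I x c := by
      intro c x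
      have h1 : Nat.card {x : P // I x c} = Nat.card P := by rw [h.block c, h.cardP, heq]
      have h2 : Function.Surjective (fun x : {x : P // I x c} => x.1) := by
        have hinj : Function.Injective (fun x : {x : P // I x c} => x.1) := Subtype.val_injective
        exact ((Nat.bijective_iff_injective_and_card _).2 ⟨hinj, h1⟩).2
      obtain ⟨y, hy⟩ := h2 x
      rw [← hy]
      exact y.2
    rw [hlv, ← h.cardP]
    exact Nat.card_congr (Equiv.subtypeUnivEquiv fun x => ⟨hall b x, hall c x⟩)

/-- **The main lemma.** -/
theorem baer {P B : Type} [Finite P] [Finite B] {I : P → B → Prop} (α : P → P) (β : B → B)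
    (hα : ∀ x, α (α x) = x) (hβ : ∀ b, β (β b) = b) (hI : ∀ x b, I x b → I (α x) (β b))
    {v k v' k' l : ℕ} (h' : IsSymmetricDesign I v' k' l)
    (h : IsSymmetricDesign (fun (x : {x : P // α x = x}) (b : {b : B // β b = b}) => I x.1 b.1) v k l)
    (hv : 2 ≤ v) (hl : 1 ≤ l) : v' = v ∨ (Odd l ∧ k' = (k - 1) ^ 2 + l) := by
  classical
  let _ : Fintype P := Fintype.ofFinite P
  let _ : Fintype B := Fintype.ofFinite B
  have hvv : v ≤ v' := by
    rw [← h.cardP, ← h'.cardP]
    exact Nat.card_le_card_of_injective (fun x : {x : P // α x = x} => x.1) Subtype.val_injective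
  have hc := (h.count (by omega)).2
  have hc' := (h'.count (by omega)).2
  -- a point on two fixed blocks is fixed
  have key : ∀ b c : B, β b = b → β c = c → b ≠ c → ∀ x, I x b → I x c → α x = x := by
    intro b c hb hcc hbc x hxb hxc
    have h1 := dual h' (by omega) hl hbc
    have h2 := dual h hv hl (b := ⟨b, hb⟩) (c := ⟨c, hcc⟩) (fun h => hbc (congrArg Subtype.val h))
    have h3 : Function.Surjective (fun y : {y : {x : P // α x = x} // I y.1 b ∧ I y.1 c} =>
        (⟨y.1.1, y.2⟩ : {x : P // I x b ∧ I x c})) := by
      refine ((Nat.bijective_iff_injective_and_card _).2 ⟨?_, ?_⟩).2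
      · intro y z hyz
        apply Subtype.ext
        apply Subtype.ext
        exact congrArg (fun w : {x : P // I x b ∧ I x c} => w.1) hyz
      · rw [h1]
        exact h2
    obtain ⟨y, hy⟩ := h3 ⟨x, hxb, hxc⟩
    have h4 : y.1.1 = x := congrArg Subtype.val hy
    rw [← h4]
    exact y.1.2
  -- the number of the fixed blocks through a nonfixed point
  have hfix : ∀ b, β b = b → ∀ x, I x b → I (α x) b := by
    intro b hb x hx
    have := hI x b hx
    rwa [hb] at this
  have hmod : ∀ x, α x ≠ x → l % 2 = (univ.filter fun b => β b = b ∧ I x b).card % 2 := by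
    intro x hx
    have h1 := h'.pair x (α x) (Ne.symm hx)
    let g : Function.End {b : B // I x b ∧ I (α x) b} := fun b => ⟨β b.1, by
      have := hI _ _ b.2.2
      rw [hα] at this
      exact this, hI _ _ b.2.1⟩
    have hg : g ^ 2 ^ 1 = 1 := by
      rw [pow_one, pow_two]
      funext b
      apply Subtype.ext
      exact hβ b.1
    have : Fact (Nat.Prime 2) := ⟨Nat.prime_two⟩
    have h2 := Equiv.Perm.card_fixedPoints_modEq (p := 2) hg
    rw [Nat.card_eq_fintype_card] at h1
    rw [h1] at h2
    have h3 : Fintype.card (Function.fixedPoints g) = (univ.filter fun b => β b = b ∧ I x b).card := by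
      rw [← Fintype.card_subtype]
      refine Fintype.card_congr
        { toFun := fun b => ⟨b.1.1, congrArg Subtype.val b.2, b.1.2.1⟩
          invFun := fun b => ⟨⟨b.1, b.2.2, hfix b.1 b.2.1 x b.2.2⟩, Subtype.ext b.2.1⟩
          left_inv := fun b => rfl
          right_inv := fun b => rfl }
    rw [← h3]
    exact h2
  have hle : ∀ x, α x ≠ x → (univ.filter fun b => β b = b ∧ I x b).card ≤ 1 := by
    intro x hx
    rw [Finset.card_le_one]
    intro b hb c hcc
    simp only [mem_filter, mem_univ, true_and] at hb hcc
    by_contra hbc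
    exact hx (key b c hb.1 hcc.1 hbc x hb.2 hcc.2)
  -- the number of the nonfixed points on a fixed block
  have hblock : ∀ b, β b = b → (univ.filter fun x => α x ≠ x ∧ I x b).card + k = k' := by
    intro b hb
    have h1 := h'.block b
    have h2 := h.block ⟨b, hb⟩
    rw [Nat.card_eq_fintype_card, Fintype.card_subtype] at h1
    rw [Nat.card_eq_fintype_card] at h2
    have h3 : Fintype.card {x : {x : P // α x = x} // I x.1 b} =
        (univ.filter fun x => α x = x ∧ I x b).card := by
      rw [← Fintype.card_subtype]
      exact Fintype.card_congr (Equiv.subtypeSubtypeEquivSubtypeInter (fun x => α x = x) (fun x => I x b))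
    have h4 : (univ.filter fun x => I x b).card =
        (univ.filter fun x => α x = x ∧ I x b).card + (univ.filter fun x => α x ≠ x ∧ I x b).card := by
      rw [← Finset.card_union_of_disjoint]
      · congr 1
        ext x
        simp only [mem_filter, mem_univ, true_and, mem_union]
        tauto
      · rw [Finset.disjoint_filter]
        intro x _ hx hx'
        exact hx'.1 hx.1
    have h5 : Fintype.card {x : {x : P // α x = x} // I x.1 b} = k := by
      rw [← h2]
    omega
  -- the number of the fixed blocks, and of the nonfixed points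
  have hnb : (univ.filter fun b : B => β b = b).card = v := by
    rw [← h.cardB, Nat.card_eq_fintype_card, ← Fintype.card_subtype]
  have hnp : (univ.filter fun x : P => α x ≠ x).card + v = v' := by
    rw [← h.cardP, ← h'.cardP, Nat.card_eq_fintype_card, Nat.card_eq_fintype_card,
      Fintype.card_subtype, ← Finset.card_univ (α := P), add_comm]
    exact Finset.card_filter_add_card_filter_not (s := univ) (fun x => α x = x)
  -- count the pairs of a nonfixed point on a fixed block
  have hdc : ∑ x ∈ univ.filter (fun x : P => α x ≠ x), (univ.filter fun b => β b = b ∧ I x b).card =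
      ∑ b ∈ univ.filter (fun b : B => β b = b), (univ.filter fun x => α x ≠ x ∧ I x b).card := by
    have e1 : ∀ x : P, (univ.filter fun b => β b = b ∧ I x b).card =
        ∑ b ∈ univ.filter (fun b : B => β b = b), if I x b then 1 else 0 := by
      intro x
      rw [← Finset.card_filter, Finset.filter_filter]
    have e2 : ∀ b : B, (univ.filter fun x => α x ≠ x ∧ I x b).card =
        ∑ x ∈ univ.filter (fun x : P => α x ≠ x), if I x b then 1 else 0 := by
      intro b
      rw [← Finset.card_filter, Finset.filter_filter]
    rw [Finset.sum_congr rfl fun x _ => e1 x, Finset.sum_congr rfl fun b _ => e2 b, Finset.sum_comm]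
  have hkk : k ≤ k' := by
    have hb : 0 < (univ.filter fun b : B => β b = b).card := by omega
    obtain ⟨b, hb⟩ := Finset.card_pos.1 hb
    have := hblock b (by simpa using hb)
    omega
  have hR : ∑ b ∈ univ.filter (fun b : B => β b = b), (univ.filter fun x => α x ≠ x ∧ I x b).card =
      v * (k' - k) := by
    rw [Finset.sum_congr rfl (g := fun _ => k' - k), Finset.sum_const, hnb, smul_eq_mul]
    intro b hb
    have := hblock b (by simpa using hb)
    omega
  rw [hR] at hdc
  rcases Nat.even_or_odd l with he | ho
  · -- `l` even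
    have h0 : ∑ x ∈ univ.filter (fun x : P => α x ≠ x), (univ.filter fun b => β b = b ∧ I x b).card = 0 := by
      refine Finset.sum_eq_zero fun x hx => ?_
      have hx' : α x ≠ x := by simpa using hx
      have h1 := hmod x hx'
      have h2 := hle x hx'
      rw [Nat.even_iff] at he
      omega
    rw [h0] at hdc
    have h1 : k' - k = 0 := by
      rcases Nat.mul_eq_zero.1 hdc.symm with h2 | h2
      · omega
      · exact h2
    have h2 : k' = k := by omega
    left
    rw [h2, hc] at hc'
    have h3 : (l : ℤ) ≠ 0 := by
      have : (1 : ℤ) ≤ l := by exact_mod_cast hl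
      omega
    have h4 := mul_left_cancel₀ h3 hc'
    omega
  · -- `l` odd
    have h0 : ∑ x ∈ univ.filter (fun x : P => α x ≠ x), (univ.filter fun b => β b = b ∧ I x b).card =
        (univ.filter fun x : P => α x ≠ x).card := by
      rw [Finset.card_eq_sum_ones]
      refine Finset.sum_congr rfl fun x hx => ?_
      have hx' : α x ≠ x := by simpa using hx
      have h1 := hmod x hx'
      have h2 := hle x hx'
      rw [Nat.odd_iff] at ho
      omega
    rw [h0] at hdc
    rcases hkk.eq_or_lt with h1 | h1
    · left
      rw [← h1, Nat.sub_self, mul_zero] at hdc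
      omega
    · right
      refine ⟨ho, ?_⟩
      have h2 : (v' : ℤ) - v = v * (k' - k) := by
        have : ((v' - v : ℕ) : ℤ) = ((v * (k' - k) : ℕ) : ℤ) := by
          congr 1
          omega
        rw [Nat.cast_sub hvv, Nat.cast_mul, Nat.cast_sub hkk] at this
        exact this
      have h3 : (l : ℤ) * v = l + k * (k - 1) := by linarith
      have h4 : ((k' : ℤ) - k) * (k' + k - 1) = (k' - k) * (l + k * (k - 1)) := by
        have e1 : ((k' : ℤ) - k) * (k' + k - 1) = k' * (k' - 1) - k * (k - 1) := by ring
        rw [e1, ← h3, hc, hc']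
        have e2 : (l : ℤ) * (v' - 1) - l * (v - 1) = l * (v' - v) := by ring
        rw [e2, h2]
        ring
      have h5 : (k' : ℤ) - k ≠ 0 := by
        have : (k : ℤ) < k' := by exact_mod_cast h1
        omega
      have h6 := mul_left_cancel₀ h5 h4
      have hk1 : 1 ≤ k := by
        by_contra hk
        have hk0 : k = 0 := by omega
        rw [hk0] at hc
        have hv' : (1 : ℤ) ≤ v - 1 := by
          have : (2 : ℤ) ≤ v := by exact_mod_cast hv
          linarith
        have hl' : (1 : ℤ) ≤ l := by exact_mod_cast hl
        norm_num at hc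
        rcases hc with hc | hc <;> omega
      have h7 : (k' : ℤ) = ((k - 1 : ℕ) : ℤ) ^ 2 + l := by
        rw [Nat.cast_sub hk1]
        push_cast
        linarith
      exact_mod_cast h7

end Pool.Agent.T2h48.TD
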