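import Pool.Agent.T2h48.DW.All
import Pool.Agent.T2h48.LF.Lead

/-!
# Single members of algebraic families of symmetric designs, without hypotheses on the number of points
-/

set_option autoImplicit false

namespace Pool.Agent.T2h48.TD

open Pool.Agent.T2h48.DW Filter Topology

theorem fam (hFF : LF.S_FORMF) {F : Type} [Field F] [Finite F] {a b : ℕ} (X : QF F a) (B : QF F b)
    (I : QF F (a + b)) :
    ∃ (T C : ℕ) (h d : ℕ → ℕ), 1 ≤ T ∧ (∀ m, h (m + T) = h m ∧ d (m + T) = d m) ∧
      (∀ (K : Type) [Field K] [Finite K] [Algebra F K],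
        |(Nat.card {x : Fin a → K // X.Holds x} : ℝ) -
          h (Module.finrank F K) * (Nat.card K : ℝ) ^ d (Module.finrank F K)| * √(Nat.card K : ℝ) ≤
          C * (Nat.card K : ℝ) ^ d (Module.finrank F K)) ∧
      (∀ (K : Type) [Field K] [Finite K] [Algebra F K], h (Module.finrank F K) = 0 →
        Nat.card {x : Fin a → K // X.Holds x} = 0) ∧
      ∀ L : ℕ, ∃ C' : ℕ, ∀ (K : Type) [Field K] [Finite K] [Algebra F K], ∀ v k l : ℕ,
        1 ≤ l → l ≤ L → C' < v →
        IsSymmetricDesign (fun (x : {x : Fin a → K // X.Holds x})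
          (y : {y : Fin b → K // B.Holds y}) => I.Holds (Fin.append x.1 y.1)) v k l →
        l ∣ h (Module.finrank F K) := by
  classical
  obtain ⟨r, f, d₀, C₀, hf, hK⟩ := hFF F a X
  have hlead := LF.leading hK
  set C : ℕ := C₀ * r + ∑ i, f i with hC
  have hT1 : 1 ≤ ∏ i, f i := Finset.one_le_prod' fun i _ => hf i
  refine ⟨∏ i, f i, C, LF.Hm f d₀, LF.Dm f d₀, hT1,
    fun m => ⟨LF.Hm_per f d₀ m, LF.Dm_per f d₀ m⟩, ?_, fun K _ _ _ h0 => LF.Hm_zero hf hK K h0, ?_⟩
  · intro K _ _ _
    exact hlead K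
  intro L
  set T := ∏ i, f i with hT
  have hHle : ∀ m, LF.Hm f d₀ m ≤ ∑ i, f i := fun m =>
    Finset.sum_le_sum_of_subset (Finset.subset_univ _)
  have hper : ∀ s t, LF.Hm f d₀ (s + T * t) = LF.Hm f d₀ s ∧ LF.Dm f d₀ (s + T * t) = LF.Dm f d₀ s := by
    intro s t
    induction t with
    | zero => simp
    | succ t ih =>
      rw [show s + T * (t + 1) = (s + T * t) + T by ring, LF.Hm_per, LF.Dm_per]
      exact ih
  have hq : 1 < Nat.card F := Finite.one_lt_card
  have key : ∀ l s : ℕ, ∃ M : ℕ, 1 ≤ l → 1 ≤ s → 1 ≤ LF.Dm f d₀ s → ¬ l ∣ LF.Hm f d₀ s →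
      ∀ t : ℕ, M ≤ t → ∀ (K : Type) [Field K] [Algebra F K], Module.finrank F K = s + T * t →
      ¬ ∃ (P B' : Type) (_ : Finite P) (_ : Finite B') (inc : P → B' → Prop) (v k : ℕ),
        IsSymmetricDesign inc v k l ∧
        Nat.card {x : Fin a → K // X.Holds x} = v ∧
        Nat.card {z : Fin (a + b) → K // (QF.flags X B I).Holds z} =
          Nat.card {z : P × B' // inc z.1 z.2} := by
    intro l s
    by_cases hc : 1 ≤ l ∧ 1 ≤ s ∧ 1 ≤ LF.Dm f d₀ s ∧ ¬ l ∣ LF.Hm f d₀ s
    · obtain ⟨hl, hs, hd, hdvd⟩ := hc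
      obtain ⟨M, hM⟩ := class_bound X (QF.flags X B I) l (LF.Hm f d₀ s) (LF.Dm f d₀ s) s T hl hd hs hT1
        (fun ε hε => by
          -- `C / √(q ^ t) ≤ ε` for large `t`
          obtain ⟨M, hM⟩ := exists_nat_gt ((C / ε) ^ 2)
          refine ⟨M, fun t ht K _ _ hKr => ?_⟩
          have hfd : FiniteDimensional F K := Module.finite_of_finrank_pos (by rw [hKr]; omega)
          have hfin : Finite K := Module.finite_of_finite F
          have hKc : (Nat.card K : ℝ) = (Nat.card F : ℝ) ^ (s + T * t) := by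
            rw [Module.natCard_eq_pow_finrank (K := F), hKr]
            push_cast
            rfl
          have h1 := hlead K
          rw [hKr, (hper s t).1, (hper s t).2] at h1
          have hKt : (t : ℝ) < Nat.card K := by
            have h2 : t < Nat.card F ^ (s + T * t) := by
              refine lt_of_le_of_lt ?_ (Nat.lt_pow_self hq)
              have : t ≤ T * t := Nat.le_mul_of_pos_left t hT1
              omega
            rw [hKc]
            exact_mod_cast h2
          have hQ0 : (0 : ℝ) < Nat.card K := lt_of_le_of_lt (Nat.cast_nonneg t) hKt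
          have hsq : C / ε ≤ √(Nat.card K : ℝ) := by
            apply Real.le_sqrt_of_sq_le
            have : (M : ℝ) ≤ t := by exact_mod_cast ht
            linarith
          have hpow : (Nat.card F : ℝ) ^ (LF.Dm f d₀ s * (s + T * t)) =
              (Nat.card K : ℝ) ^ LF.Dm f d₀ s := by
            rw [hKc, ← pow_mul, mul_comm]
          rw [hpow]
          have hP : (0 : ℝ) < (Nat.card K : ℝ) ^ LF.Dm f d₀ s := by positivity
          have h3 : (Nat.card {x : Fin a → K // X.Holds x} : ℝ) / (Nat.card K : ℝ) ^ LF.Dm f d₀ s -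
              LF.Hm f d₀ s = ((Nat.card {x : Fin a → K // X.Holds x} : ℝ) -
                LF.Hm f d₀ s * (Nat.card K : ℝ) ^ LF.Dm f d₀ s) / (Nat.card K : ℝ) ^ LF.Dm f d₀ s := by
            field_simp
          rw [h3, abs_div, abs_of_pos hP, div_le_iff₀ hP]
          set A := |(Nat.card {x : Fin a → K // X.Holds x} : ℝ) -
            LF.Hm f d₀ s * (Nat.card K : ℝ) ^ LF.Dm f d₀ s| with hA
          have hA0 : 0 ≤ A := abs_nonneg _
          have hC' : (C : ℝ) ≤ ε * √(Nat.card K : ℝ) := by
            rw [div_le_iff₀ hε] at hsq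
            linarith
          have hsp : 0 < √(Nat.card K : ℝ) := Real.sqrt_pos.2 hQ0
          have h4 : A * √(Nat.card K : ℝ) ≤
              ε * (Nat.card K : ℝ) ^ LF.Dm f d₀ s * √(Nat.card K : ℝ) := by
            calc A * √(Nat.card K : ℝ) ≤ C * (Nat.card K : ℝ) ^ LF.Dm f d₀ s := by
                  rw [hC]
                  exact h1
              _ ≤ ε * √(Nat.card K : ℝ) * (Nat.card K : ℝ) ^ LF.Dm f d₀ s :=
                  mul_le_mul_of_nonneg_right hC' hP.le
              _ = _ := by ring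
          exact le_of_mul_le_mul_right h4 hsp) hdvd
      exact ⟨M, fun _ _ _ _ => hM⟩
    · exact ⟨0, fun h1 h2 h3 h4 => absurd ⟨h1, h2, h3, h4⟩ hc⟩
  choose M hM using key
  set S := ∑ l ∈ Finset.range (L + 1), ∑ s ∈ Finset.range (T + 1), M l s with hS
  refine ⟨Nat.card F ^ ((T * (S + 2)) * a) + ∑ i, f i + C, fun K _ _ _ v k l hl hlL hv hdes => ?_⟩
  by_contra hdvd
  have hfd : FiniteDimensional F K := Module.Finite.of_finite
  set m := Module.finrank F K with hm
  have hm1 : 1 ≤ m := Module.finrank_pos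
  obtain ⟨s, t, hs1, hs2, hst⟩ : ∃ s t, 1 ≤ s ∧ s ≤ T ∧ m = s + T * t := by
    refine ⟨(m - 1) % T + 1, (m - 1) / T, by omega, Nat.mod_lt _ hT1, ?_⟩
    have := Nat.mod_add_div (m - 1) T
    omega
  have hvc := hdes.cardP
  have hKc : Nat.card K = Nat.card F ^ m := Module.natCard_eq_pow_finrank (K := F)
  -- the dimension is positive
  have hd1 : 1 ≤ LF.Dm f d₀ s := by
    by_contra hd0
    have hd0' : LF.Dm f d₀ s = 0 := by omega
    have h1 := hlead K
    rw [← hm, hst, (hper s t).1, (hper s t).2, hd0', pow_zero, mul_one, mul_one, hvc] at h1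
    have hsq : (1 : ℝ) ≤ √(Nat.card K : ℝ) := by
      rw [Real.one_le_sqrt]
      exact_mod_cast Nat.card_pos
    have h2 : |(v : ℝ) - LF.Hm f d₀ s| ≤ C := by
      refine le_trans ?_ h1
      exact le_mul_of_one_le_right (abs_nonneg _) hsq
    have h3 := (abs_le.1 h2).2
    have h4 : (LF.Hm f d₀ s : ℝ) ≤ (∑ i, f i : ℕ) := by exact_mod_cast hHle s
    have h5 : (v : ℝ) ≤ ((∑ i, f i + C : ℕ) : ℝ) := by
      rw [Nat.cast_add]
      linarith
    have h6 : v ≤ ∑ i, f i + C := by exact_mod_cast h5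
    omega
  have hlt : t < M l s := by
    by_contra hge
    push Not at hge
    refine hM l s hl hs1 hd1 ?_ t hge K ?_ ⟨_, _, inferInstance, inferInstance, _, v, k, hdes,
      hdes.cardP, QF.card_flags X B I⟩
    · rw [hst, (hper s t).1] at hdvd
      exact hdvd
    · rw [← hm, hst]
  have hMS : M l s ≤ S := by
    refine le_trans ?_ (Finset.single_le_sum (f := fun l => ∑ s ∈ Finset.range (T + 1), M l s)
      (fun _ _ => Nat.zero_le _) (Finset.mem_range.2 (by omega : l < L + 1)))
    exact Finset.single_le_sum (f := fun s => M l s) (fun _ _ => Nat.zero_le _)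
      (Finset.mem_range.2 (by omega : s < T + 1))
  have hmS : m ≤ T * (S + 2) := by
    rw [hst]
    have h1 : T * t ≤ T * S := Nat.mul_le_mul_left T (by omega)
    have h2 : T * (S + 2) = T * S + 2 * T := by ring
    omega
  have hva : v ≤ Nat.card F ^ ((T * (S + 2)) * a) := by
    rw [← hvc]
    calc Nat.card {x : Fin a → K // X.Holds x} ≤ Nat.card (Fin a → K) :=
          Nat.card_le_card_of_injective _ Subtype.val_injective
      _ = Nat.card K ^ a := by
          rw [Nat.card_fun, Nat.card_eq_fintype_card (α := Fin a), Fintype.card_fin]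
      _ = Nat.card F ^ (m * a) := by rw [hKc, ← pow_mul]
      _ ≤ _ := Nat.pow_le_pow_right (by omega) (Nat.mul_le_mul_right a hmS)
  omega

end Pool.Agent.T2h48.TD
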