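import Mathlib

/-! Numerical part: the number of the geometric components grows along a tower of designs with `λ ≥ 2`. -/

set_option autoImplicit false

namespace Pool.Agent.T2h48.TD

/-- the equality step -/
theorem step_eq {Q V : ℝ} {h h' d d' C : ℕ} (h1 : 1 ≤ h) (h1' : 1 ≤ h') (hC : h ≤ C) (hC' : h' ≤ C)
    (hQ : 4 * ((C : ℝ) + 1) ≤ Q) (e : |V - h * Q ^ d| ≤ Q ^ d / 16)
    (e' : |V - h' * (Q ^ 2) ^ d'| ≤ (Q ^ 2) ^ d' / 16) : h' = h := by
  have hC0 : (0 : ℝ) ≤ C := Nat.cast_nonneg C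
  have hQ4 : (4 : ℝ) ≤ Q := by linarith
  have hQ0 : (0 : ℝ) < Q := by linarith
  rw [← pow_mul] at e'
  obtain ⟨a1, a2⟩ := abs_le.1 e
  obtain ⟨b1, b2⟩ := abs_le.1 e'
  have g1 : (1 : ℝ) ≤ h := by exact_mod_cast h1
  have g1' : (1 : ℝ) ≤ h' := by exact_mod_cast h1'
  have gC : (h : ℝ) ≤ C := by exact_mod_cast hC
  have gC' : (h' : ℝ) ≤ C := by exact_mod_cast hC'
  have hd : d = 2 * d' := by
    rcases lt_trichotomy d (2 * d') with hlt | heq | hgt
    · exfalso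
      have p0 : (0 : ℝ) < Q ^ d := by positivity
      have p1 : Q ^ d * Q ≤ Q ^ (2 * d') := by
        rw [← pow_succ]
        exact pow_le_pow_right₀ (by linarith) hlt
      have p2 : Q ^ (2 * d') * (15 / 16) ≤ V := by nlinarith [pow_pos hQ0 (2 * d')]
      have p3 : V ≤ (C + 1) * Q ^ d := by nlinarith
      have p4 : (15 / 16) * Q * Q ^ d ≤ (C + 1) * Q ^ d := by nlinarith
      have p5 := le_of_mul_le_mul_right p4 p0
      linarith
    · exact heq
    · exfalso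
      have p0 : (0 : ℝ) < Q ^ (2 * d') := by positivity
      have p1 : Q ^ (2 * d') * Q ≤ Q ^ d := by
        rw [← pow_succ]
        exact pow_le_pow_right₀ (by linarith) hgt
      have p2 : Q ^ d * (15 / 16) ≤ V := by nlinarith [pow_pos hQ0 d]
      have p3 : V ≤ (C + 1) * Q ^ (2 * d') := by nlinarith
      have p4 : (15 / 16) * Q * Q ^ (2 * d') ≤ (C + 1) * Q ^ (2 * d') := by nlinarith
      have p5 := le_of_mul_le_mul_right p4 p0
      linarith
  rw [← hd] at b1 b2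
  have p0 : (0 : ℝ) < Q ^ d := by positivity
  have c1 : ((h : ℝ) - h') * Q ^ d ≤ (1 / 8) * Q ^ d := by nlinarith
  have c2 : ((h' : ℝ) - h) * Q ^ d ≤ (1 / 8) * Q ^ d := by nlinarith
  have d1 := le_of_mul_le_mul_right c1 p0
  have d2 := le_of_mul_le_mul_right c2 p0
  by_contra hne
  rcases lt_or_gt_of_ne hne with hlt | hgt
  · have : (h' : ℝ) + 1 ≤ h := by exact_mod_cast hlt
    linarith
  · have : (h : ℝ) + 1 ≤ h' := by exact_mod_cast hgt
    linarith

/-- the quadratic step -/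
theorem step_sq {Q V V' l : ℝ} {h h' d d' C : ℕ} (h1 : 1 ≤ h) (h1' : 1 ≤ h') (hC : h ≤ C)
    (hC' : h' ≤ C) (hl : 2 ≤ l) (hQ1 : 1 ≤ Q) (hQ : 2 * l * ((C : ℝ) + 1) ^ 2 ≤ Q ^ 2)
    (e : |V - h * Q ^ d| ≤ Q ^ d / 16) (e' : |V' - h' * (Q ^ 2) ^ d'| ≤ (Q ^ 2) ^ d' / 16)
    (hu : V' ≤ l * V ^ 2) (hlo : (15 / 16) * (l * V ^ 2) ≤ V') : h + 1 ≤ h' := by
  have hC0 : (0 : ℝ) ≤ C := Nat.cast_nonneg C
  obtain ⟨a1, a2⟩ := abs_le.1 e
  obtain ⟨b1, b2⟩ := abs_le.1 e'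
  have g1 : (1 : ℝ) ≤ h := by exact_mod_cast h1
  have g1' : (1 : ℝ) ≤ h' := by exact_mod_cast h1'
  have gC : (h : ℝ) ≤ C := by exact_mod_cast hC
  have gC' : (h' : ℝ) ≤ C := by exact_mod_cast hC'
  have hQ0 : (0 : ℝ) < Q := by linarith
  set W : ℝ := Q ^ 2 with hW
  have hW0 : 0 < W := by positivity
  have hW8 : 8 ≤ W := by nlinarith
  have hV1 : (15 / 16) * h * Q ^ d ≤ V := by nlinarith [pow_pos hQ0 d]
  have hV2 : V ≤ (C + 1) * Q ^ d := by nlinarith [pow_pos hQ0 d]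
  have hQd : (Q ^ d) ^ 2 = W ^ d := by rw [hW, ← pow_mul, ← pow_mul, mul_comm]
  have hVl : (h - 1 / 16) * Q ^ d ≤ V := by nlinarith [pow_pos hQ0 d]
  have hV0 : 0 ≤ V := le_trans (by positivity) hV1
  have s1 : V ^ 2 ≤ (C + 1) ^ 2 * W ^ d := by
    rw [← hQd, ← mul_pow]
    exact pow_le_pow_left₀ hV0 hV2 2
  have s2 : (h - 1 / 16) ^ 2 * W ^ d ≤ V ^ 2 := by
    rw [← hQd, ← mul_pow]
    exact pow_le_pow_left₀ (by have := pow_pos hQ0 d; nlinarith) hVl 2
  have hd : d = d' := by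
    rcases lt_trichotomy d d' with hlt | heq | hgt
    · exfalso
      have p0 : (0 : ℝ) < W ^ d := by positivity
      have p1 : W ^ d * W ≤ W ^ d' := by
        rw [← pow_succ]
        exact pow_le_pow_right₀ (by linarith) hlt
      have p2 : W ^ d' * (15 / 16) ≤ V' := by nlinarith [pow_pos hW0 d']
      have p3 : V' ≤ l * (C + 1) ^ 2 * W ^ d := by nlinarith
      have p4 : (15 / 16) * W * W ^ d ≤ l * (C + 1) ^ 2 * W ^ d := by nlinarith
      have p5 := le_of_mul_le_mul_right p4 p0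
      have p6 : (0 : ℝ) < l * ((C : ℝ) + 1) ^ 2 := by positivity
      linarith
    · exact heq
    · exfalso
      have p0 : (0 : ℝ) < W ^ d' := by positivity
      have p1 : W ^ d' * W ≤ W ^ d := by
        rw [← pow_succ]
        exact pow_le_pow_right₀ (by linarith) hgt
      have q1 : (15 / 16 : ℝ) ≤ h - 1 / 16 := by linarith
      have q2 : (15 / 16 : ℝ) ^ 2 ≤ (h - 1 / 16) ^ 2 := pow_le_pow_left₀ (by norm_num) q1 2
      have p2 : (15 / 16) ^ 2 * W ^ d ≤ V ^ 2 :=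
        le_trans (mul_le_mul_of_nonneg_right q2 (by positivity)) s2
      have p3 : (15 / 16) * (2 * ((15 / 16) ^ 2 * (W ^ d' * W))) ≤ V' := by
        refine le_trans ?_ hlo
        refine mul_le_mul_of_nonneg_left ?_ (by norm_num)
        refine mul_le_mul hl ?_ (by positivity) (by linarith)
        refine le_trans ?_ p2
        exact mul_le_mul_of_nonneg_left p1 (by norm_num)
      have p4 : V' ≤ (C + 1) * W ^ d' := by nlinarith
      have p5 : (3 / 2) * W * W ^ d' ≤ (C + 1) * W ^ d' := by nlinarith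
      have p6 := le_of_mul_le_mul_right p5 p0
      nlinarith
  rw [← hd] at b1 b2
  have p0 : (0 : ℝ) < W ^ d := by positivity
  have c1 : (15 / 16) * (2 * (h - 1 / 16) ^ 2) * W ^ d ≤ ((h' : ℝ) + 1 / 16) * W ^ d := by
    have t1 : (15 / 16) * (2 * ((h - 1 / 16) ^ 2 * W ^ d)) ≤ V' := by
      refine le_trans ?_ hlo
      refine mul_le_mul_of_nonneg_left ?_ (by norm_num)
      exact mul_le_mul hl s2 (by positivity) (by linarith)
    nlinarith
  have c2 := le_of_mul_le_mul_right c1 p0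
  have c3 : (h : ℝ) < h' := by nlinarith
  exact_mod_cast c3

/-- `V' ~ l V ^ 2` -/
theorem sq_bounds {k k' l V V' : ℝ} (hl : 2 ≤ l) (hk : 40 ≤ k) (h : k * (k - 1) = l * (V - 1))
    (h' : k' * (k' - 1) = l * (V' - 1)) (hk' : k' = (k - 1) ^ 2 + l) :
    V' ≤ l * V ^ 2 ∧ (15 / 16) * (l * V ^ 2) ≤ V' := by
  have hl0 : 0 < l := by linarith
  have e1 : l * V = k ^ 2 - k + l := by linarith
  have e2 : l * V' = k' * (k' - 1) + l := by linarith
  have e3 : k' = k ^ 2 - 2 * k + 1 + l := by rw [hk']; ring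
  set A : ℝ := k ^ 2 - k + l with hA
  have hA0 : 0 < A := by nlinarith
  have f1 : l * V' ≤ A ^ 2 := by
    rw [e2, e3]
    have t1 : k ^ 2 - 2 * k + 1 + l ≤ A := by rw [hA]; linarith
    have t2 : 0 ≤ k ^ 2 - 2 * k + l := by nlinarith
    have t3 : (k ^ 2 - 2 * k + 1 + l) * (k ^ 2 - 2 * k + 1 + l - 1) ≤ A * (k ^ 2 - 2 * k + l) := by
      have : k ^ 2 - 2 * k + 1 + l - 1 = k ^ 2 - 2 * k + l := by ring
      rw [this]
      exact mul_le_mul_of_nonneg_right t1 t2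
    have t4 : k ^ 2 - 2 * k + l = A - k := by rw [hA]; ring
    rw [t4] at t3
    have t5 : l ≤ A := by rw [hA]; nlinarith
    nlinarith
  have f2 : (15 / 16) * A ^ 2 ≤ l * V' := by
    rw [e2, e3]
    have t2 : 0 ≤ k ^ 2 - 2 * k + l := by nlinarith
    have t4 : k ^ 2 - 2 * k + l = A - k := by rw [hA]; ring
    have t3 : (A - k) ^ 2 ≤ (k ^ 2 - 2 * k + 1 + l) * (k ^ 2 - 2 * k + 1 + l - 1) := by
      rw [← t4]
      nlinarith
    have t5 : 39 * k ≤ A := by rw [hA]; nlinarith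
    nlinarith
  have g : l * (l * V ^ 2) = A ^ 2 := by rw [← e1]; ring
  constructor
  · have : l * V' ≤ l * (l * V ^ 2) := by rw [g]; exact f1
    exact le_of_mul_le_mul_left this hl0
  · have : l * ((15 / 16) * (l * V ^ 2)) ≤ l * V' := by
      have : l * ((15 / 16) * (l * V ^ 2)) = (15 / 16) * A ^ 2 := by rw [← g]; ring
      rw [this]
      exact f2
    exact le_of_mul_le_mul_left this hl0

/-- **No tower of designs with `λ ≥ 2`.** -/
theorem no_tower {q l C : ℕ} (k V : ℕ → ℕ) (hq : 2 ≤ q) (hl : 2 ≤ l)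
    (hkV : ∀ s, (k s : ℤ) * (k s - 1) = l * (V s - 1)) (hk1 : ∀ s, 1 ≤ k s)
    (hst : ∀ s, V (s + 1) = V s ∨ k (s + 1) = (k s - 1) ^ 2 + l) (hunb : ∀ B, ∃ s, B < V s)
    (hLW : ∀ s, ∃ h d : ℕ, h ≤ C ∧ d ≤ C ∧ (h = 0 → V s = 0) ∧
      |(V s : ℝ) - h * ((q ^ (2 ^ s) : ℕ) : ℝ) ^ d| * √((q ^ (2 ^ s) : ℕ) : ℝ) ≤
        C * ((q ^ (2 ^ s) : ℕ) : ℝ) ^ d) : False := by
  have hl0 : (l : ℤ) ≠ 0 := by
    have : (2 : ℤ) ≤ l := by exact_mod_cast hl
    omega
  -- monotonicity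
  have hmono : ∀ s, V s ≤ V (s + 1) := by
    intro s
    rcases hst s with h | h
    · exact h.ge
    · have h1 := hkV s
      have h2 := hkV (s + 1)
      have h3 : k s ≤ k (s + 1) := by
        rw [h]
        obtain ⟨j, hj⟩ : ∃ j, k s = j + 1 := ⟨k s - 1, by have := hk1 s; omega⟩
        rw [hj, Nat.add_sub_cancel]
        nlinarith
      have h4 : (k s : ℤ) ≤ k (s + 1) := by exact_mod_cast h3
      have h5 : (1 : ℤ) ≤ k s := by exact_mod_cast hk1 s
      have h6 : (l : ℤ) * (V s - 1) ≤ l * (V (s + 1) - 1) := by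
        rw [← h1, ← h2]
        nlinarith
      have h7 : (0 : ℤ) < l := by positivity
      have h8 := le_of_mul_le_mul_left h6 h7
      omega
  have hmono' : Monotone V := monotone_nat_of_le_succ hmono
  -- large indices
  set Qf : ℕ → ℝ := fun s => ((q ^ (2 ^ s) : ℕ) : ℝ) with hQf
  have hQs : ∀ s, Qf (s + 1) = Qf s ^ 2 := by
    intro s
    simp only [hQf]
    rw [pow_succ 2 s, pow_mul q]
    push_cast
    ring
  have hQge : ∀ s : ℕ, (s : ℝ) ≤ Qf s := by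
    intro s
    simp only [hQf]
    have h1 : s ≤ q ^ (2 ^ s) := by
      have h2 : s < 2 ^ s := Nat.lt_two_pow_self
      have h3 : 2 ^ s < q ^ (2 ^ s) := Nat.lt_pow_self (by omega)
      omega
    exact_mod_cast h1
  have hQmono : ∀ s t, s ≤ t → Qf s ≤ Qf t := by
    intro s t hst
    simp only [hQf]
    have : q ^ (2 ^ s) ≤ q ^ (2 ^ t) :=
      Nat.pow_le_pow_right (by omega) (Nat.pow_le_pow_right (by omega) hst)
    exact_mod_cast this
  obtain ⟨s₁, hs₁⟩ := hunb (40 * 40)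
  obtain ⟨s₂, hs₂⟩ : ∃ s₂ : ℕ, (16 * (C : ℝ) + 16) ^ 2 + 2 * l * ((C : ℝ) + 1) ^ 2 + 4 * (C + 1) + 1 ≤ s₂ :=
    exists_nat_ge _
  set s₀ := max s₁ s₂ with hs₀
  choose h d hhC hdC hh0 hLW' using hLW
  have hC0 : (0 : ℝ) ≤ C := Nat.cast_nonneg C
  have hQbig : ∀ s, s₀ ≤ s → (16 * (C : ℝ) + 16) ^ 2 + 2 * l * ((C : ℝ) + 1) ^ 2 + 4 * (C + 1) + 1 ≤ Qf s := by
    intro s hs
    refine hs₂.trans ((hQge s₂).trans (hQmono _ _ ?_))
    exact (le_max_right _ _).trans hs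
  have hl2 : (2 : ℝ) ≤ l := by exact_mod_cast hl
  have herr : ∀ s, s₀ ≤ s → |(V s : ℝ) - h s * Qf s ^ d s| ≤ Qf s ^ d s / 16 := by
    intro s hs
    have h1 := hLW' s
    have h2 := hQbig s hs
    have h3 : (16 * (C : ℝ) + 16) ^ 2 ≤ Qf s := by
      have : (0 : ℝ) ≤ 2 * l * ((C : ℝ) + 1) ^ 2 := by positivity
      linarith
    have h4 : 16 * (C : ℝ) + 16 ≤ √(Qf s) := by
      rw [Real.le_sqrt' (by positivity)]
      exact h3
    have h5 : (0 : ℝ) < Qf s ^ d s := by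
      have : (0 : ℝ) < Qf s := by nlinarith
      positivity
    have h6 : |(V s : ℝ) - h s * Qf s ^ d s| * (16 * (C : ℝ) + 16) ≤ C * Qf s ^ d s :=
      le_trans (mul_le_mul_of_nonneg_left h4 (abs_nonneg _)) h1
    have h7 : 0 ≤ |(V s : ℝ) - h s * Qf s ^ d s| := abs_nonneg _
    by_contra hcon
    push Not at hcon
    nlinarith
  have hVpos : ∀ s, s₀ ≤ s → 40 * 40 < V s := fun s hs =>
    lt_of_lt_of_le hs₁ (hmono' ((le_max_left _ _).trans hs))
  have hh1 : ∀ s, s₀ ≤ s → 1 ≤ h s := by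
    intro s hs
    rcases Nat.eq_zero_or_pos (h s) with h1 | h1
    · have := hh0 s h1
      have := hVpos s hs
      omega
    · exact h1
  have hk40 : ∀ s, s₀ ≤ s → 40 ≤ k s := by
    intro s hs
    by_contra hcon
    push Not at hcon
    have h1 := hkV s
    have h2 := hVpos s hs
    have h3 : (k s : ℤ) < 40 := by exact_mod_cast hcon
    have h4 : (1600 : ℤ) < V s := by exact_mod_cast h2
    have h5 : (2 : ℤ) ≤ l := by exact_mod_cast hl
    have h6 : (1 : ℤ) ≤ k s := by exact_mod_cast hk1 s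
    nlinarith
  have hmain : ∀ s, s₀ ≤ s → (V (s + 1) = V s ∧ h (s + 1) = h s) ∨ h s + 1 ≤ h (s + 1) := by
    intro s hs
    have e := herr s hs
    have e' := herr (s + 1) (by omega)
    rw [hQs] at e'
    have hQb := hQbig s hs
    have p1 : (0 : ℝ) ≤ 2 * l * ((C : ℝ) + 1) ^ 2 := by positivity
    have p2 : (0 : ℝ) ≤ (16 * (C : ℝ) + 16) ^ 2 := by positivity
    have hQ1 : 1 ≤ Qf s := by linarith
    by_cases heq : V (s + 1) = V s
    · left
      refine ⟨heq, ?_⟩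
      rw [heq] at e'
      exact step_eq (hh1 s hs) (hh1 (s + 1) (by omega)) (hhC s) (hhC (s + 1)) (by linarith) e e'
    · right
      have hk' := (hst s).resolve_left heq
      have b := sq_bounds (k := k s) (k' := k (s + 1)) (l := l) (V := V s) (V' := V (s + 1)) hl2
        (by exact_mod_cast hk40 s hs) (by exact_mod_cast hkV s) (by exact_mod_cast hkV (s + 1)) (by
          rw [hk']
          push_cast [Nat.cast_sub (hk1 s)]
          ring)
      refine step_sq (hh1 s hs) (hh1 (s + 1) (by omega)) (hhC s) (hhC (s + 1)) hl2 hQ1 ?_ e e' b.1 b.2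
      nlinarith
  -- the maximum of `h`
  have hbd : BddAbove (Set.range fun t : ℕ => h (s₀ + t)) := ⟨C, by rintro _ ⟨t, rfl⟩; exact hhC _⟩
  obtain ⟨t₀, ht₀⟩ : ∃ t₀, ∀ t, h (s₀ + t) ≤ h (s₀ + t₀) := by
    have h1 : (Set.range fun t : ℕ => h (s₀ + t)).Nonempty := ⟨_, ⟨0, rfl⟩⟩
    obtain ⟨t₀, ht₀⟩ := Nat.sSup_mem h1 hbd
    refine ⟨t₀, fun t => ?_⟩
    have := le_csSup hbd ⟨t, rfl⟩
    rw [← ht₀] at this
    exact this
  have hcon : ∀ t, V (s₀ + t₀ + t) = V (s₀ + t₀) ∧ h (s₀ + t₀ + t) = h (s₀ + t₀) := by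
    intro t
    induction t with
    | zero => exact ⟨rfl, rfl⟩
    | succ t ih =>
      rcases hmain (s₀ + t₀ + t) (by omega) with h1 | h1
      · exact ⟨h1.1.trans ih.1, h1.2.trans ih.2⟩
      · exfalso
        have h2 := ht₀ (t₀ + t + 1)
        have h3 : s₀ + (t₀ + t + 1) = s₀ + t₀ + t + 1 := by ring
        rw [h3] at h2
        omega
  obtain ⟨s, hs⟩ := hunb (V (s₀ + t₀))
  rcases le_total s (s₀ + t₀) with h1 | h1
  · exact absurd (hmono' h1) (by omega)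
  · obtain ⟨t, rfl⟩ := Nat.exists_eq_add_of_le h1
    rw [(hcon t).1] at hs
    exact lt_irrefl _ hs

end Pool.Agent.T2h48.TD
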