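import Pool.Agent.T2h48.TD.Baer
import Pool.Agent.T2h48.TD.Num
import Pool.Agent.T2h48.AD.Alg
import Pool.Agent.T2h48.LF.Cons

/-!
# Towers of algebraic families of symmetric designs
-/

set_option autoImplicit false

namespace Pool.Agent.T2h48.TD

open Pool.Agent.T2h48.DW Pool.Agent.T2h48.AD MvPolynomial

/-- the incidence relation of the member over `K` -/
def inc {F : Type} [Field F] {a b : ℕ} (X : QF F a) (B : QF F b) (I : QF F (a + b))
    (K : Type) [Field K] [Algebra F K] (x : Pt X K) (y : Pt B K) : Prop :=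
  I.Holds (Fin.append x.1 y.1)

section bind
variable {F F' : Type} [Field F] [Field F'] [Algebra F F']

/-- substitution of polynomials -/
noncomputable def bind {n m : ℕ} (g : Fin n → MvPolynomial (Fin m) F') : QF F n → QF F' m
  | QF.eq f => QF.eq (aeval g f)
  | QF.neg φ => QF.neg (bind g φ)
  | QF.and φ ψ => QF.and (bind g φ) (bind g ψ)

theorem bind_holds {n m : ℕ} (g : Fin n → MvPolynomial (Fin m) F') {K : Type} [Field K] [Algebra F K]
    [Algebra F' K] [IsScalarTower F F' K] (φ : QF F n) (x : Fin m → K) :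
    (bind g φ).Holds x ↔ φ.Holds (fun i => aeval x (g i)) := by
  induction φ with
  | eq f =>
    show aeval x (aeval g f) = 0 ↔ aeval (fun i => aeval x (g i)) f = 0
    have h1 : (((aeval x : MvPolynomial (Fin m) F' →ₐ[F'] K).restrictScalars F).comp
        (aeval g : MvPolynomial (Fin n) F →ₐ[F] MvPolynomial (Fin m) F')) =
        aeval (fun i => aeval x (g i)) := by
      apply MvPolynomial.algHom_ext
      intro i
      rw [AlgHom.comp_apply, aeval_X, aeval_X]
      rfl
    rw [← h1]
    rfl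
  | neg φ ih => exact not_congr ih
  | and φ ψ h1 h2 => exact and_congr h1 h2

/-- the same formula over an extension -/
noncomputable def up {n : ℕ} (φ : QF F n) : QF F' n := bind (fun i => MvPolynomial.X i) φ

theorem up_holds {n : ℕ} {K : Type} [Field K] [Algebra F K] [Algebra F' K] [IsScalarTower F F' K]
    (φ : QF F n) (x : Fin n → K) : (up (F' := F') φ).Holds x ↔ φ.Holds x := by
  unfold up
  rw [bind_holds]
  simp only [aeval_X]

/-- the points on the block `y` -/
noncomputable def onBlock {a b : ℕ} (X : QF F a) (I : QF F (a + b)) (y : Fin b → F) : QF F a :=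
  QF.and X (bind (Fin.append (fun i => MvPolynomial.X i) (fun i => MvPolynomial.C (y i))) I)

theorem onBlock_holds {a b : ℕ} (X : QF F a) (I : QF F (a + b)) (y : Fin b → F) {K : Type} [Field K]
    [Algebra F K] (x : Fin a → K) : (onBlock X I y).Holds x ↔
      X.Holds x ∧ I.Holds (Fin.append x fun i => algebraMap F K (y i)) := by
  unfold onBlock
  show X.Holds x ∧ _ ↔ _
  rw [bind_holds]
  refine and_congr Iff.rfl ?_
  have h1 : (fun i => (aeval x) ((Fin.append (fun i => MvPolynomial.X i)
      (fun i => MvPolynomial.C (y i)) : Fin (a + b) → MvPolynomial (Fin a) F) i)) =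
      Fin.append x fun i => algebraMap F K (y i) := by
    funext i
    refine Fin.addCases (fun i => ?_) (fun i => ?_) i
    · rw [Fin.append_left, Fin.append_left, aeval_X]
    · rw [Fin.append_right, Fin.append_right, aeval_C]
  rw [h1]

end bind

section step
variable {F K K' : Type} [Field F] [Field K] [Finite K] [Algebra F K] [Field K'] [Finite K'] [Algebra F K']

/-- the parameters are determined -/
theorem unique {P B : Type} {I : P → B → Prop} {v k l v' k' l' : ℕ} (h : IsSymmetricDesign I v k l)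
    (h' : IsSymmetricDesign I v' k' l') (hv : 2 ≤ v) : v = v' ∧ k = k' ∧ l = l' := by
  refine ⟨h.cardP.symm.trans h'.cardP, ?_, ?_⟩
  · have : 0 < Nat.card B := by rw [h.cardB]; omega
    obtain ⟨⟨b⟩, -⟩ := Nat.card_pos_iff.1 this
    rw [← h.block b, h'.block b]
  · have h1 : 1 < Nat.card P := by rw [h.cardP]; omega
    have hf : Finite P := Nat.finite_of_card_ne_zero (by omega)
    obtain ⟨x, y, hxy⟩ := (Finite.one_lt_card_iff_nontrivial.1 h1).exists_pair_ne
    rw [← h.pair x y hxy, h'.pair x y hxy]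

omit [Finite K] [Finite K'] in
theorem append_map' {a b : ℕ} {A C : Type} (f : A → C) (x : Fin a → A) (y : Fin b → A) :
    Fin.append (fun i => f (x i)) (fun i => f (y i)) = fun i => f (Fin.append x y i) := by
  funext l
  refine Fin.addCases (fun l => ?_) (fun l => ?_) l
  · rw [Fin.append_left, Fin.append_left]
  · rw [Fin.append_right, Fin.append_right]

/-- the points over `K` as points over `K'` -/
def mp (j : K →ₐ[F] K') {a : ℕ} (X : QF F a) (x : Pt X K) : Pt X K' :=
  ⟨fun i => j (x.1 i), (holds_map X j x.1).2 x.2⟩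

omit [Finite K] [Finite K'] in
theorem mp_inj (j : K →ₐ[F] K') {a : ℕ} (X : QF F a) : Function.Injective (mp j X) := by
  intro x y h
  apply Subtype.ext
  funext i
  exact RingHom.injective (j : K →+* K') (congrFun (congrArg Subtype.val h) i)

omit [Finite K] [Finite K'] in
theorem mp_inc (j : K →ₐ[F] K') {a b : ℕ} (X : QF F a) (B : QF F b) (I : QF F (a + b)) (x : Pt X K)
    (y : Pt B K) : inc X B I K' (mp j X x) (mp j B y) ↔ inc X B I K x y := by
  unfold inc mp
  show I.Holds (Fin.append (fun i => j (x.1 i)) (fun i => j (y.1 i))) ↔ _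
  rw [append_map', holds_map I j]

omit [Finite K] in
theorem le_of_emb (j : K →ₐ[F] K') {a b : ℕ} {X : QF F a} {B : QF F b} {I : QF F (a + b)}
    {v k l v' k' l' : ℕ} (h : IsSymmetricDesign (inc X B I K) v k l)
    (h' : IsSymmetricDesign (inc X B I K') v' k' l') : v ≤ v' ∧ (2 ≤ v → l ≤ l') := by
  have hfP : Finite (Pt X K') := Subtype.finite
  have hfB : Finite (Pt B K') := Subtype.finite
  refine ⟨?_, fun hv => ?_⟩
  · rw [← h.cardP, ← h'.cardP]
    exact Nat.card_le_card_of_injective _ (mp_inj j X)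
  · have h1 : 1 < Nat.card (Pt X K) := by rw [h.cardP]; omega
    have hf : Finite (Pt X K) := Nat.finite_of_card_ne_zero (by omega)
    obtain ⟨x, y, hxy⟩ := (Finite.one_lt_card_iff_nontrivial.1 h1).exists_pair_ne
    rw [← h.pair x y hxy, ← h'.pair (mp j X x) (mp j X y) (fun h => hxy (mp_inj j X h))]
    refine Nat.card_le_card_of_injective (fun b : {b : Pt B K // inc X B I K x b ∧ inc X B I K y b} =>
      (⟨mp j B b.1, (mp_inc j X B I x b.1).2 b.2.1, (mp_inc j X B I y b.1).2 b.2.2⟩ :
        {b : Pt B K' // inc X B I K' (mp j X x) b ∧ inc X B I K' (mp j X y) b})) ?_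
    intro b c hbc
    apply Subtype.ext
    exact mp_inj j B (congrArg Subtype.val hbc)

/-- the quadratic extension -/
theorem quadD (j : K →ₐ[F] K') (hcard : Nat.card K' = Nat.card K ^ 2) {a b : ℕ} {X : QF F a} {B : QF F b}
    {I : QF F (a + b)} {v k l v' k' : ℕ} (h : IsSymmetricDesign (inc X B I K) v k l)
    (h' : IsSymmetricDesign (inc X B I K') v' k' l) (hv : 2 ≤ v) (hl : 1 ≤ l) :
    v' = v ∨ (Odd l ∧ k' = (k - 1) ^ 2 + l) := by
  classical
  obtain ⟨σ, hσ, hσj⟩ := exists_sigma j hcard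
  have hfP : Finite (Pt X K') := Subtype.finite
  have hfB : Finite (Pt B K') := Subtype.finite
  have hfix : ∀ {n : ℕ} (Y : QF F n) (x : Pt Y K'), mp σ Y x = x ↔ x ∈ Set.range (mp j Y) := by
    intro n Y x
    constructor
    · intro hx
      have h1 : ∀ i, x.1 i ∈ Set.range j := fun i => (hσj _).1 (congrFun (congrArg Subtype.val hx) i)
      choose z hz using h1
      have h2 : (fun i => j (z i)) = x.1 := funext hz
      have h3 : Y.Holds z := by
        rw [← holds_map Y j, h2]
        exact x.2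
      exact ⟨⟨z, h3⟩, Subtype.ext h2⟩
    · rintro ⟨z, rfl⟩
      apply Subtype.ext
      funext i
      exact (hσj _).2 ⟨z.1 i, rfl⟩
  have hinv : ∀ {n : ℕ} (Y : QF F n) (x : Pt Y K'), mp σ Y (mp σ Y x) = x := fun Y x =>
    Subtype.ext (funext fun i => hσ _)
  have e : ∀ {n : ℕ} (Y : QF F n), ∃ e : Pt Y K ≃ {x : Pt Y K' // mp σ Y x = x},
      ∀ x, (e x).1 = mp j Y x := by
    intro n Y
    refine ⟨Equiv.ofBijective (fun x => ⟨mp j Y x, (hfix Y _).2 ⟨x, rfl⟩⟩) ⟨?_, ?_⟩, fun x => rfl⟩
    · intro x y hxy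
      exact mp_inj j Y (congrArg Subtype.val hxy)
    · rintro ⟨x, hx⟩
      obtain ⟨z, hz⟩ := (hfix Y x).1 hx
      exact ⟨z, Subtype.ext hz⟩
  obtain ⟨e1, he1⟩ := e X
  obtain ⟨e2, he2⟩ := e B
  refine baer (mp σ X) (mp σ B) (hinv X) (hinv B) (fun x y hxy => (mp_inc σ X B I x y).2 hxy) h' ?_ hv hl
  refine design_congr e1 e2 ?_ h
  intro x b
  rw [he1, he2]
  exact mp_inc j X B I x b

end step

/-- **The main theorem**, for the base field -/
theorem main0 (hFF : LF.S_FORMF) (hLIM : S_LIM) {F : Type} [Field F] [Finite F] {a b : ℕ} (X : QF F a)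
    (B : QF F b) (I : QF F (a + b)) (L : ℕ)
    (h : ∀ (s : ℕ) (K : Type) [Field K] [Finite K] [Algebra F K], Module.finrank F K = 2 ^ s →
      ∃ v k l, 1 ≤ l ∧ l ≤ L ∧ IsSymmetricDesign (inc X B I K) v k l)
    (hinf : ∀ C : ℕ, ∃ (s : ℕ) (K : Type) (_ : Field K) (_ : Finite K) (_ : Algebra F K),
      Module.finrank F K = 2 ^ s ∧ C < Nat.card (Pt X K))
    {v k l : ℕ} (hv : 2 ≤ v) (hF : IsSymmetricDesign (inc X B I F) v k l) :
    l = 1 ∧ ∃ w, 1 ≤ w ∧ k = Nat.card F ^ w + 1 := by
  classical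
  obtain ⟨p, hp⟩ := CharP.exists F
  have hpp : Fact p.Prime := ⟨CharP.char_is_prime F p⟩
  let K : ℕ → Type := fun s => FiniteField.Extension F p (2 ^ s)
  have hne : ∀ s, NeZero (2 ^ s) := fun s => ⟨by positivity⟩
  have hfin : ∀ s, Finite (K s) := fun s => by
    have := hne s
    exact Module.finite_of_finite F
  have hrank : ∀ s, Module.finrank F (K s) = 2 ^ s := fun s => by
    have := hne s
    exact FiniteField.finrank_extension F p (2 ^ s)
  have hcard : ∀ s, Nat.card (K s) = Nat.card F ^ (2 ^ s) := fun s => by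
    have := hne s
    exact FiniteField.natCard_extension F p (2 ^ s)
  choose V k' l' hl1 hlL hdes using fun s => h s (K s) (hrank s)
  have hemb : ∀ s, Nonempty (K s →ₐ[F] K (s + 1)) := fun s =>
    FiniteField.nonempty_algHom_of_finrank_dvd (F := F) (K := K s) (L := K (s + 1)) (by
      rw [hrank, hrank]
      exact pow_dvd_pow 2 (by omega))
  have hV0 : V 0 = v ∧ k' 0 = k ∧ l' 0 = l := by
    have e : F ≃ₐ[F] K 0 := by
      have := hne 0
      exact FiniteField.algEquivExtension F p (2 ^ 0) F (by rw [Module.finrank_self, pow_zero])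
    let e1 : ∀ {n : ℕ} (Y : QF F n), Pt Y F ≃ Pt Y (K 0) := fun Y =>
      { toFun := mp (e : F →ₐ[F] K 0) Y
        invFun := mp (e.symm : K 0 →ₐ[F] F) Y
        left_inv := fun x => Subtype.ext (funext fun i => e.symm_apply_apply _)
        right_inv := fun x => Subtype.ext (funext fun i => e.apply_symm_apply _) }
    have h1 : IsSymmetricDesign (inc X B I (K 0)) v k l :=
      design_congr (e1 X) (e1 B) (fun x y => mp_inc (e : F →ₐ[F] K 0) X B I x y) hF
    obtain ⟨h2, h3, h4⟩ := unique h1 (hdes 0) hv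
    exact ⟨h2.symm, h3.symm, h4.symm⟩
  have hVm : ∀ s, V s ≤ V (s + 1) := by
    intro s
    obtain ⟨j⟩ := hemb s
    have := hfin (s + 1)
    exact (le_of_emb j (hdes s) (hdes (s + 1))).1
  have hVm' : Monotone V := monotone_nat_of_le_succ hVm
  have hV2 : ∀ s, 2 ≤ V s := fun s => by
    have := hVm' (Nat.zero_le s)
    rw [hV0.1] at this
    omega
  have hlm : ∀ s, l' s ≤ l' (s + 1) := by
    intro s
    obtain ⟨j⟩ := hemb s
    have := hfin (s + 1)
    exact (le_of_emb j (hdes s) (hdes (s + 1))).2 (hV2 s)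
  have hlm' : Monotone l' := monotone_nat_of_le_succ hlm
  have hunb : ∀ C, ∃ s, C < V s := by
    intro C
    obtain ⟨s, K', iF, iK, iA, hK', hC⟩ := hinf C
    refine ⟨s, ?_⟩
    have e : K' ≃ₐ[F] K s := by
      have := hne s
      exact FiniteField.algEquivExtension F p (2 ^ s) K' hK'
    have h1 := (hdes s).cardP
    have := hfin s
    have hfP : Finite (Pt X (K s)) := Subtype.finite
    have h2 := Nat.card_le_card_of_injective _ (mp_inj (e : K' →ₐ[F] K s) X)
    omega
  -- `l` is eventually constant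
  have hbd : BddAbove (Set.range l') := ⟨L, by rintro _ ⟨s, rfl⟩; exact hlL s⟩
  obtain ⟨s₀, hs₀⟩ : ∃ s₀, ∀ s, l' s ≤ l' s₀ := by
    obtain ⟨s₀, hs₀⟩ := Nat.sSup_mem (Set.range_nonempty l') hbd
    refine ⟨s₀, fun s => ?_⟩
    rw [hs₀]
    exact le_csSup hbd ⟨s, rfl⟩
  have hlc : ∀ t, l' (s₀ + t) = l' s₀ := fun t => le_antisymm (hs₀ _) (hlm' (Nat.le_add_right _ _))
  have hcnt : ∀ s, ((k' s : ℕ) : ℤ) * (k' s - 1) = l' s * (V s - 1) := by
    intro s
    have := hfin s
    have hfP : Finite (Pt X (K s)) := Subtype.finite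
    have hfB : Finite (Pt B (K s)) := Subtype.finite
    exact ((hdes s).count (by have := hV2 s; omega)).2
  have hk1 : ∀ s, 1 ≤ k' s := by
    intro s
    by_contra hk
    have hk0 : k' s = 0 := by omega
    have h1 := hcnt s
    rw [hk0] at h1
    have h2 := hV2 s
    have h3 := hl1 s
    have h4 : (1 : ℤ) ≤ l' s := by exact_mod_cast h3
    have h5 : (2 : ℤ) ≤ V s := by exact_mod_cast h2
    norm_num at h1
    rcases h1 with h1 | h1 <;> omega
  have hstep : ∀ s, l' s = l' (s + 1) →
      V (s + 1) = V s ∨ k' (s + 1) = (k' s - 1) ^ 2 + l' s := by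
    intro s hs
    obtain ⟨j⟩ := hemb s
    have i1 := hfin s
    have i2 := hfin (s + 1)
    have h1 := hdes (s + 1)
    rw [← hs] at h1
    rcases quadD j (by rw [hcard, hcard, ← pow_mul, ← pow_succ]) (hdes s) h1 (hV2 s) (hl1 s) with h2 | h2
    · exact Or.inl h2
    · exact Or.inr h2.2
  have hq : 2 ≤ Nat.card F := Finite.one_lt_card
  obtain ⟨C, hC⟩ := LF.bounded (hFF F a X)
  -- `l = 1`
  have hls₀ : l' s₀ = 1 := by
    by_contra hne
    have hl2 : 2 ≤ l' s₀ := by
      have := hl1 s₀
      omega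
    refine no_tower (q := Nat.card F ^ (2 ^ s₀)) (l := l' s₀) (C := C) (fun t => k' (s₀ + t))
      (fun t => V (s₀ + t)) ?_ hl2 ?_ (fun t => hk1 _) ?_ ?_ ?_
    · exact le_trans hq (Nat.le_self_pow (by positivity) _)
    · intro t
      have h1 := hcnt (s₀ + t)
      rw [hlc] at h1
      exact h1
    · intro t
      rcases hstep (s₀ + t) (by
        rw [hlc]
        have := hlc (t + 1)
        rw [← add_assoc] at this
        exact this.symm) with h1 | h1
      · exact Or.inl h1
      · right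
        rw [hlc] at h1
        exact h1
    · intro D
      obtain ⟨s, hs⟩ := hunb D
      exact ⟨s, lt_of_lt_of_le hs (hVm' (Nat.le_add_left s s₀))⟩
    · intro t
      have := hfin (s₀ + t)
      obtain ⟨h', d, h1, h2, h3, h4⟩ := hC (K (s₀ + t))
      have h5 : Nat.card {x : Fin a → K (s₀ + t) // X.Holds x} = V (s₀ + t) := (hdes (s₀ + t)).cardP
      have h6 : (Nat.card F ^ 2 ^ s₀) ^ 2 ^ t = Nat.card F ^ 2 ^ (s₀ + t) := by
        rw [← pow_mul, ← pow_add]
      rw [h5] at h3 h4
      rw [hcard (s₀ + t)] at h4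
      rw [h6]
      exact ⟨h', d, h1, h2, h3, h4⟩
  have hl1' : ∀ s, l' s = 1 := fun s => le_antisymm ((hs₀ s).trans hls₀.le) (hl1 s)
  have hl : l = 1 := by rw [← hV0.2.2]; exact hl1' 0
  refine ⟨hl, ?_⟩
  -- the order
  let N : ℕ → ℕ := fun s => k' s - 1
  have hkN : ∀ s, k' s = N s + 1 := fun s => by
    have := hk1 s
    show k' s = k' s - 1 + 1
    omega
  have hVN : ∀ s, V s = N s * (N s + 1) + 1 := by
    intro s
    have h1 := hcnt s
    rw [hl1' s, hkN s] at h1
    have h2 : ((N s * (N s + 1) + 1 : ℕ) : ℤ) = V s := by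
      push_cast at h1 ⊢
      linarith
    exact_mod_cast h2.symm
  have hNstep : ∀ s, N (s + 1) = N s ∨ N (s + 1) = N s ^ 2 := by
    intro s
    rcases hstep s (by rw [hl1', hl1']) with h1 | h1
    · left
      rw [hVN, hVN] at h1
      have h2 : N (s + 1) * (N (s + 1) + 1) = N s * (N s + 1) := by omega
      rcases lt_trichotomy (N (s + 1)) (N s) with h3 | h3 | h3
      · nlinarith
      · exact h3
      · nlinarith
    · right
      rw [hl1', hkN (s + 1)] at h1
      show N (s + 1) = (k' s - 1) ^ 2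
      omega
  have hNunb : ∀ D, ∃ s, D < N s := by
    intro D
    obtain ⟨s, hs⟩ := hunb (D * (D + 1) + 1)
    refine ⟨s, ?_⟩
    rw [hVN] at hs
    by_contra hcon
    push Not at hcon
    have := Nat.mul_le_mul hcon (Nat.add_le_add_right hcon 1)
    omega
  have hN2 : 2 ≤ N 0 := by
    by_contra hcon
    have h1 : ∀ s, N s ≤ 1 := by
      intro s
      induction s with
      | zero => omega
      | succ s ih =>
        rcases hNstep s with h2 | h2
        · rw [h2]; exact ih
        · rw [h2]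
          interval_cases (N s) <;> norm_num
    obtain ⟨s, hs⟩ := hNunb 1
    have := h1 s
    omega
  -- a block over `F`
  have hB : 0 < Nat.card (Pt B F) := by rw [hF.cardB]; omega
  obtain ⟨⟨y⟩, -⟩ := Nat.card_pos_iff.1 hB
  obtain ⟨C', hC'⟩ := LF.bounded (hFF F a (onBlock X I y.1))
  obtain ⟨w, hw⟩ := hLIM (Nat.card F) (N 0) 1 1 C' N hq hN2 le_rfl le_rfl rfl hNstep hNunb (by
    intro s
    have := hfin s
    obtain ⟨h', d, h1, h2, h3, h4⟩ := hC' (K s)
    have h5 : Nat.card {x : Fin a → K s // (onBlock X I y.1).Holds x} = S (N s) (1 + 1) := by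
      have h6 := (hdes s).block ⟨fun i => algebraMap F (K s) (y.1 i),
        (holds_map B (Algebra.ofId F (K s)) y.1).2 y.2⟩
      have h7 : S (N s) (1 + 1) = k' s := by
        rw [hkN s]
        simp [S, Finset.sum_range_succ, add_comm]
      rw [h7, ← h6]
      exact Nat.card_congr
        { toFun := fun x => ⟨⟨x.1, ((onBlock_holds X I y.1 x.1).1 x.2).1⟩,
            ((onBlock_holds X I y.1 x.1).1 x.2).2⟩
          invFun := fun x => ⟨x.1.1, (onBlock_holds X I y.1 x.1.1).2 ⟨x.1.2, x.2⟩⟩
          left_inv := fun x => rfl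
          right_inv := fun x => rfl }
    rw [h5] at h3 h4
    rw [hcard s] at h4
    refine ⟨h', d, h1, h2, h3, ?_⟩
    rw [one_mul]
    exact h4)
  rw [pow_one] at hw
  refine ⟨w, ?_, ?_⟩
  · by_contra hw0
    have : w = 0 := by omega
    rw [this, pow_zero] at hw
    omega
  · rw [← hV0.2.1, hkN 0, hw]

/-- **The main theorem**, for all members -/
theorem main (hFF : LF.S_FORMF) (hLIM : S_LIM) {F : Type} [Field F] [Finite F] {a b : ℕ} (X : QF F a)
    (B : QF F b) (I : QF F (a + b)) (L : ℕ)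
    (h : ∀ (s : ℕ) (K : Type) [Field K] [Finite K] [Algebra F K], Module.finrank F K = 2 ^ s →
      ∃ v k l, 1 ≤ l ∧ l ≤ L ∧ IsSymmetricDesign (inc X B I K) v k l)
    (hinf : ∀ C : ℕ, ∃ (s : ℕ) (K : Type) (_ : Field K) (_ : Finite K) (_ : Algebra F K),
      Module.finrank F K = 2 ^ s ∧ C < Nat.card (Pt X K))
    {s : ℕ} {K : Type} [Field K] [Finite K] [Algebra F K] (hK : Module.finrank F K = 2 ^ s)
    {v k l : ℕ} (hv : 2 ≤ v) (hKd : IsSymmetricDesign (inc X B I K) v k l) :
    l = 1 ∧ ∃ w, 1 ≤ w ∧ k = Nat.card K ^ w + 1 := by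
  classical
  obtain ⟨p, hp⟩ := CharP.exists F
  have hpp : Fact p.Prime := ⟨CharP.char_is_prime F p⟩
  have e : ∀ {n : ℕ} (Y : QF F n) (M : Type) [Field M] [Algebra F M] [Algebra K M] [IsScalarTower F K M],
      ∃ e : Pt Y M ≃ Pt (up (F' := K) Y) M, ∀ x, (e x).1 = x.1 := by
    intro n Y M _ _ _ _
    exact ⟨{ toFun := fun x => ⟨x.1, (up_holds Y x.1).2 x.2⟩
             invFun := fun x => ⟨x.1, (up_holds Y x.1).1 x.2⟩
             left_inv := fun x => rfl
             right_inv := fun x => rfl }, fun x => rfl⟩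
  have hup : ∀ (M : Type) [Field M] [Algebra F M] [Algebra K M] [IsScalarTower F K M] (v k l : ℕ),
      IsSymmetricDesign (inc X B I M) v k l →
      IsSymmetricDesign (inc (up (F' := K) X) (up (F' := K) B) (up (F' := K) I) M) v k l := by
    intro M _ _ _ _ v k l hM
    obtain ⟨e1, he1⟩ := e X M
    obtain ⟨e2, he2⟩ := e B M
    refine design_congr e1 e2 (fun x y => ?_) hM
    unfold inc
    rw [up_holds, he1, he2]
  refine main0 hFF hLIM (up (F' := K) X) (up (F' := K) B) (up (F' := K) I) L ?_ ?_ hv (hup K v k l hKd)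
  · intro t M _ _ _ hM
    let _ : Algebra F M := ((algebraMap K M).comp (algebraMap F K)).toAlgebra
    have _ : IsScalarTower F K M := IsScalarTower.of_algebraMap_eq' rfl
    obtain ⟨v, k, l, h1, h2, h3⟩ := h (s + t) M (by
      rw [← Module.finrank_mul_finrank F K M, hK, hM, pow_add])
    exact ⟨v, k, l, h1, h2, hup M v k l h3⟩
  · intro C
    obtain ⟨t, M, iF, iM, iA, hM, hC⟩ := hinf C
    -- an extension of `K` which contains `M`
    let M' := FiniteField.Extension F p (2 ^ (s + t))
    have hne : NeZero (2 ^ (s + t)) := ⟨by positivity⟩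
    have hrank : Module.finrank F M' = 2 ^ (s + t) := FiniteField.finrank_extension F p (2 ^ (s + t))
    have hfin : Finite M' := Module.finite_of_finite F
    obtain ⟨j⟩ := FiniteField.nonempty_algHom_of_finrank_dvd (F := F) (K := K) (L := M') (by
      rw [hrank, hK]
      exact pow_dvd_pow 2 (by omega))
    obtain ⟨j'⟩ := FiniteField.nonempty_algHom_of_finrank_dvd (F := F) (K := M) (L := M') (by
      rw [hrank, hM]
      exact pow_dvd_pow 2 (by omega))
    let _ : Algebra K M' := j.toRingHom.toAlgebra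
    have _ : IsScalarTower F K M' := IsScalarTower.of_algebraMap_eq fun x => (j.commutes x).symm
    refine ⟨t, M', inferInstance, hfin, inferInstance, ?_, ?_⟩
    · have h1 := Module.finrank_mul_finrank F K M'
      rw [hrank, hK] at h1
      exact Nat.eq_of_mul_eq_mul_left (by positivity) (h1.trans (pow_add 2 s t))
    · obtain ⟨e1, -⟩ := e X M'
      have hfP : Finite (Pt X M') := Subtype.finite
      rw [← Nat.card_congr e1]
      exact lt_of_lt_of_le hC (Nat.card_le_card_of_injective _ (mp_inj j' X))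

end Pool.Agent.T2h48.TD
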